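import Mathlib

/-!
# Nontrivial attractors of the flattening cellular automaton

If `h i → ∞` as `|i| → ∞`, then the configuration whose ones are the sites `(i, j)` with `j ≤ h i`
is an attractor. At time `n` its ones are the sites `(i, j)` with `j ≤ h (i - k)` for some
`0 ≤ k ≤ n`, and every finite perturbation lies between two configurations of the same kind.
-/

set_option autoImplicit false

open Filter

namespace Pool.Agent.Results.MP_851083_pr.SubgraphAttractors

/-- the local rule `max (min a b) (min c d)` -/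
def F (a b c d : Bool) : Bool := max (min a b) (min c d)

/-- the trajectory: `traj s n` is the configuration `x_{., ., n - 1}`, so that `traj s 0 = s` -/
def traj (s : ℤ × ℤ → Bool) : ℕ → ℤ × ℤ → Bool
  | 0 => s
  | n + 1 => fun p => F (traj s n (p.1, p.2)) (traj s n (p.1, p.2 - 1))
      (traj s n (p.1 - 1, p.2)) (traj s n (p.1 - 1, p.2 - 1))

/-- `s` is an attractor: the trajectories of all its finite perturbations are finite perturbations
of its trajectory -/
def IsAttractor (s : ℤ × ℤ → Bool) : Prop :=
  ∀ s' : ℤ × ℤ → Bool, {p | s' p ≠ s p}.Finite →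
    {q : (ℤ × ℤ) × ℕ | traj s' q.2 q.1 ≠ traj s q.2 q.1}.Finite

/-- the configuration whose ones are the sites `(i, j)` with `j ≤ h i` -/
def below (h : ℤ → ℤ) : ℤ × ℤ → Bool := fun p => decide (p.2 ≤ h p.1)

theorem F_true (a b c d : Bool) : F a b c d = true ↔
    (a = true ∧ b = true) ∨ (c = true ∧ d = true) := by
  revert a b c d; decide

theorem traj_mono (s s' : ℤ × ℤ → Bool) (h : ∀ p, s p = true → s' p = true) (n : ℕ) :
    ∀ p, traj s n p = true → traj s' n p = true := by
  induction n with
  | zero => exact h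
  | succ n ih =>
    intro p
    simp only [traj, F_true]
    rintro (⟨h1, h2⟩ | ⟨h1, h2⟩)
    · exact Or.inl ⟨ih _ h1, ih _ h2⟩
    · exact Or.inr ⟨ih _ h1, ih _ h2⟩

theorem traj_below (h : ℤ → ℤ) (n : ℕ) : ∀ i j : ℤ, traj (below h) n (i, j) = true ↔
    ∃ k : ℕ, k ≤ n ∧ j ≤ h (i - k) := by
  induction n with
  | zero => intro i j; simp [traj, below]
  | succ n ih =>
    intro i j
    simp only [traj, F_true, ih]
    constructor
    · rintro (⟨⟨k, hk, h1⟩, _⟩ | ⟨⟨k, hk, h1⟩, _⟩)
      · exact ⟨k, by omega, h1⟩
      · refine ⟨k + 1, by omega, ?_⟩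
        rwa [show i - ((k + 1 : ℕ) : ℤ) = i - 1 - k by push_cast; ring]
    · rintro ⟨k, hk, h1⟩
      by_cases hkn : k ≤ n
      · left
        exact ⟨⟨k, hkn, h1⟩, ⟨k, hkn, by linarith⟩⟩
      · right
        have hk1 : k = n + 1 := by omega
        subst hk1
        rw [show i - ((n + 1 : ℕ) : ℤ) = i - 1 - n by push_cast; ring] at h1
        exact ⟨⟨n, le_rfl, h1⟩, ⟨n, le_rfl, by linarith⟩⟩

theorem finite_bound {α : Type} (f : α → ℤ) (S : Set α) (hS : S.Finite) :
    ∃ N : ℤ, 0 ≤ N ∧ ∀ p ∈ S, |f p| ≤ N := by
  obtain ⟨N, hN⟩ := (hS.image (fun p => |f p|)).bddAbove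
  exact ⟨max N 0, le_max_right _ _, fun p hp => le_max_of_le_left (hN ⟨p, hp, rfl⟩)⟩

theorem attractor (h : ℤ → ℤ) (hh : Tendsto h cofinite atTop) : IsAttractor (below h) := by
  intro s' hs'
  obtain ⟨N1, hN1, hb1⟩ := finite_bound Prod.fst _ hs'
  obtain ⟨N2, hN2, hb2⟩ := finite_bound Prod.snd _ hs'
  -- bound for the heights over `[-N1, N1]`
  obtain ⟨B, hB, hbB⟩ := finite_bound h (Set.Icc (-N1) N1) (Set.finite_Icc _ _)
  set U : ℤ → ℤ := fun i => if |i| ≤ N1 then max (h i) N2 else h i with hU
  set L : ℤ → ℤ := fun i => if |i| ≤ N1 then min (h i) (-N2 - 1) else h i with hL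
  have hs'U : ∀ p, s' p = true → below U p = true := by
    intro p hp
    simp only [below, decide_eq_true_eq, hU]
    by_cases hpp : s' p ≠ below h p
    · have h1 := hb1 p hpp
      have h2 := hb2 p hpp
      rw [if_pos h1]
      exact le_max_of_le_right (le_trans (le_abs_self _) h2)
    · push Not at hpp
      rw [hp] at hpp
      have h1 : p.2 ≤ h p.1 := by simpa [below] using hpp.symm
      split_ifs
      · exact le_max_of_le_left h1
      · exact h1
  have hsU : ∀ p, below h p = true → below U p = true := by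
    intro p hp
    simp only [below, decide_eq_true_eq, hU] at hp ⊢
    split_ifs
    · exact le_max_of_le_left hp
    · exact hp
  have hLs : ∀ p, below L p = true → below h p = true := by
    intro p hp
    simp only [below, decide_eq_true_eq, hL] at hp ⊢
    split_ifs at hp
    · exact hp.trans (min_le_left _ _)
    · exact hp
  have hLs' : ∀ p, below L p = true → s' p = true := by
    intro p hp
    by_contra hne
    have hne' : s' p ≠ below h p := by rw [hLs p hp]; exact hne
    have h1 := hb1 p hne'
    have h2 := hb2 p hne'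
    simp only [below, decide_eq_true_eq, hL] at hp
    rw [if_pos h1] at hp
    have h3 := hp.trans (min_le_right _ _)
    have h4 := neg_abs_le p.2
    linarith
  -- a bound for the columns with small height
  obtain ⟨M, hM, hbM⟩ := finite_bound (fun i : ℤ => i) {i : ℤ | h i ≤ max B N2}
    (by
      have := hh.eventually (eventually_gt_atTop (max B N2))
      rw [eventually_cofinite] at this
      simpa only [not_lt] using this)
  set M' : ℤ := max M N1 with hM'
  have hbig : ∀ i : ℤ, M' < |i| → max B N2 < L i := by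
    intro i hi
    have h1 : ¬ |i| ≤ N1 := not_le.2 (lt_of_le_of_lt (le_max_right _ _) hi)
    simp only [hL]
    rw [if_neg h1]
    by_contra hc
    have := hbM i (not_lt.1 hc)
    have h2 : M < |i| := lt_of_le_of_lt (le_max_left _ _) hi
    linarith
  obtain ⟨C, hC, hbC⟩ := finite_bound L (Set.Icc (-M') M') (Set.finite_Icc _ _)
  refine Set.Finite.subset (s := (Set.Icc (-M') M' ×ˢ Set.Icc (-C) (max B N2)) ×ˢ
    Set.Iic (2 * M').toNat) (((Set.finite_Icc _ _).prod (Set.finite_Icc _ _)).prod
    (Set.finite_Iic _)) ?_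
  rintro ⟨⟨i, j⟩, n⟩ hne
  simp only [Set.mem_ofPred_eq] at hne
  have hUt : traj (below U) n (i, j) = true := by
    by_contra hc
    have h1 : ¬ traj s' n (i, j) = true := fun h => hc (traj_mono _ _ hs'U n _ h)
    have h2 : ¬ traj (below h) n (i, j) = true := fun h => hc (traj_mono _ _ hsU n _ h)
    rw [Bool.not_eq_true] at h1 h2
    exact hne (h1.trans h2.symm)
  have hLf : ¬ traj (below L) n (i, j) = true := by
    intro hc
    exact hne ((traj_mono _ _ hLs' n _ hc).trans (traj_mono _ _ hLs n _ hc).symm)
  rw [traj_below] at hUt hLf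
  push Not at hLf
  obtain ⟨k, hk, hjk⟩ := hUt
  have hjL := hLf k hk
  have hjB : j ≤ max B N2 := by
    simp only [hU, hL] at hjk hjL
    by_cases h1 : |i - k| ≤ N1
    · rw [if_pos h1] at hjk
      refine hjk.trans (max_le_max ?_ le_rfl)
      exact (le_abs_self _).trans (hbB _ (abs_le.1 h1))
    · rw [if_neg h1] at hjk hjL
      exact absurd hjk (not_le.2 hjL)
  have hall : ∀ k' ≤ n, |i - (k' : ℤ)| ≤ M' := by
    intro k' hk'
    by_contra hc
    have h1 := hbig _ (not_le.1 hc)
    have h2 := hLf k' hk'
    linarith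
  have h0 := hall 0 (Nat.zero_le _)
  have hn := hall n le_rfl
  simp only [Nat.cast_zero, sub_zero] at h0
  have hj0 := hLf 0 (Nat.zero_le _)
  simp only [Nat.cast_zero, sub_zero] at hj0
  have hC0 := hbC i (abs_le.1 h0)
  rw [abs_le] at h0 hn hC0
  simp only [Set.mem_prod, Set.mem_Icc, Set.mem_Iic]
  refine ⟨⟨⟨h0.1, h0.2⟩, by linarith, hjB⟩, ?_⟩
  omega

theorem ones_infinite (h : ℤ → ℤ) : {p | below h p = true}.Infinite := by
  refine Set.infinite_of_injective_forall_mem (f := fun n : ℕ => ((0 : ℤ), h 0 - (n : ℤ))) ?_ ?_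
  · intro a b hab
    simpa using hab
  · intro n
    simp [below]

theorem zeros_infinite (h : ℤ → ℤ) : {p | below h p = false}.Infinite := by
  refine Set.infinite_of_injective_forall_mem (f := fun n : ℕ => ((0 : ℤ), h 0 + 1 + (n : ℤ))) ?_ ?_
  · intro a b hab
    simpa using hab
  · intro n
    simp only [below, Set.mem_ofPred_eq, decide_eq_false_iff_not, not_le]
    linarith [Int.natCast_nonneg n]

/-- for every `h` with `h i → ∞` as `|i| → ∞` the configuration with ones below the graph of `h`
is an attractor with infinitely many ones and infinitely many zeroes; in particular the flattening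
automaton has attractors outside the bunches of all zeroes and of all ones -/
theorem result :
    (∀ h : ℤ → ℤ, Tendsto h cofinite atTop → IsAttractor (below h) ∧
      {p | below h p = true}.Infinite ∧ {p | below h p = false}.Infinite) ∧
    ∃ s : ℤ × ℤ → Bool, IsAttractor s ∧ {p | s p = true}.Infinite ∧ {p | s p = false}.Infinite := by
  have h1 : ∀ h : ℤ → ℤ, Tendsto h cofinite atTop → IsAttractor (below h) ∧
      {p | below h p = true}.Infinite ∧ {p | below h p = false}.Infinite :=
    fun h hh => ⟨attractor h hh, ones_infinite h, zeros_infinite h⟩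
  refine ⟨h1, below (fun i => |i|), h1 _ ?_⟩
  rw [Int.cofinite_eq]
  exact tendsto_abs_atBot_atTop.sup tendsto_abs_atTop_atTop

end Pool.Agent.Results.MP_851083_pr.SubgraphAttractors
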